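import Pool.Agent.TH783.CE.Flat
import Pool.Agent.TH783.CE.Thin

/-!
# Pairs of quadratic forms with a ratio of two linear forms in a flat set
-/

set_option autoImplicit false
set_option linter.unusedSectionVars false

namespace Pool.Agent.T2h62.PQ

open Polynomial Pool.Agent.TH783.CE

variable {K : Type} [Field K] [CharZero K] {V : Type} [AddCommGroup V] [Module K V]

/-- two symmetric bilinear forms and two linear forms -/
structure Dat (K V : Type) [Field K] [AddCommGroup V] [Module K V] where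
  A : V →ₗ[K] V →ₗ[K] K
  B : V →ₗ[K] V →ₗ[K] K
  sA : ∀ u v, A u v = A v u
  sB : ∀ u v, B u v = B v u
  x₀ : V →ₗ[K] K
  x₁ : V →ₗ[K] K

namespace Dat

/-- all ratios at the common zeros are in `O` -/
def Val (D : Dat K V) (O : Set K) : Prop :=
  ∀ v, D.A v v = 0 → D.B v v = 0 → D.x₀ v ≠ 0 → D.x₁ v / D.x₀ v ∈ O

/-- the ratios at the common zeros in the subspace `W` -/
def vals (D : Dat K V) (W : Submodule K V) : Set K :=
  {a | ∃ v ∈ W, D.A v v = 0 ∧ D.B v v = 0 ∧ D.x₀ v ≠ 0 ∧ a = D.x₁ v / D.x₀ v}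

/-- the restriction to a subspace -/
def res (D : Dat K V) (W : Submodule K V) : Dat K W where
  A := D.A.compl₁₂ W.subtype W.subtype
  B := D.B.compl₁₂ W.subtype W.subtype
  sA u v := D.sA u v
  sB u v := D.sB u v
  x₀ := D.x₀ ∘ₗ W.subtype
  x₁ := D.x₁ ∘ₗ W.subtype

theorem res_val {D : Dat K V} {O : Set K} (h : D.Val O) (W : Submodule K V) : (D.res W).Val O :=
  fun v hA hB h0 => h v hA hB h0

theorem res_vals (D : Dat K V) (W : Submodule K V) : (D.res W).vals ⊤ = D.vals W := by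
  ext a
  constructor
  · rintro ⟨v, -, hA, hB, h0, h1⟩
    exact ⟨v, v.2, hA, hB, h0, h1⟩
  · rintro ⟨v, hv, hA, hB, h0, h1⟩
    exact ⟨⟨v, hv⟩, trivial, hA, hB, h0, h1⟩

/-- the values are covered by finitely many values and by the values on finitely many proper
subspaces -/
def Cov (D : Dat K V) : Prop := ∃ (E : Set K) (W : Set (Submodule K V)), E.Finite ∧ W.Finite ∧
  (∀ U ∈ W, U ≠ ⊤) ∧ ∀ v, D.A v v = 0 → D.B v v = 0 → D.x₀ v ≠ 0 →
    D.x₁ v / D.x₀ v ∈ E ∨ ∃ U ∈ W, D.x₁ v / D.x₀ v ∈ D.vals U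

theorem Cov.thin {D : Dat K V} (h : D.Cov) (IH : ∀ U : Submodule K V, U ≠ ⊤ → Thin (D.vals U)) :
    Thin (D.vals ⊤) := by
  obtain ⟨E, W, hE, hW, hU, hv⟩ := h
  refine ((Thin.of_finite hE).union (Thin.biUnion hW fun U hUW => IH U (hU U hUW))).mono ?_
  rintro a ⟨v, -, hA, hB, h0, rfl⟩
  rcases hv v hA hB h0 with h | ⟨U, hUW, h⟩
  · exact Or.inl h
  · exact Or.inr (Set.mem_biUnion hUW h)

/-- one value -/
theorem cov_one {D : Dat K V} (a : K)
    (h : ∀ v, D.A v v = 0 → D.B v v = 0 → D.x₀ v ≠ 0 → D.x₁ v / D.x₀ v = a) : D.Cov :=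
  ⟨{a}, ∅, Set.finite_singleton a, Set.finite_empty, fun U hU => absurd hU (Set.notMem_empty U),
    fun v hA hB h0 => Or.inl (h v hA hB h0)⟩

theorem ratio_eq {D : Dat K V} {a b : K} (hab : a ≠ 0 ∨ b ≠ 0) {v : V} (h0 : D.x₀ v ≠ 0)
    (h : a * D.x₀ v + b * D.x₁ v = 0) : D.x₁ v / D.x₀ v = -a / b := by
  have hb : b ≠ 0 := by
    rintro rfl
    rcases hab with ha | ha
    · rw [zero_mul, add_zero] at h
      exact (mul_ne_zero ha h0) h
    · exact ha rfl
  rw [div_eq_div_iff h0 hb]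
  linear_combination h

/-- dependent linear forms -/
theorem cov_dep {D : Dat K V} {a b : K} (hab : a ≠ 0 ∨ b ≠ 0)
    (h : ∀ v, a * D.x₀ v + b * D.x₁ v = 0) : D.Cov :=
  cov_one (-a / b) fun v _ _ h0 => ratio_eq hab h0 (h v)

/-- one value or a list of subspaces -/
theorem cov_sub {D : Dat K V} (E : Set K) (hE : E.Finite) (W : Set (Submodule K V)) (hW : W.Finite)
    (hU : ∀ U ∈ W, U ≠ ⊤)
    (h : ∀ v, D.A v v = 0 → D.B v v = 0 → D.x₀ v ≠ 0 → D.x₁ v / D.x₀ v ∈ E ∨ ∃ U ∈ W, v ∈ U) :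
    D.Cov := by
  refine ⟨E, W, hE, hW, hU, fun v hA hB h0 => ?_⟩
  rcases h v hA hB h0 with h | ⟨U, hUW, hvU⟩
  · exact Or.inl h
  · exact Or.inr ⟨U, hUW, v, hvU, hA, hB, h0, rfl⟩

end Dat

/-- polarization -/
theorem zero_of_quad {G : V →ₗ[K] V →ₗ[K] K} (sG : ∀ u v, G u v = G v u) (h : ∀ v, G v v = 0) :
    G = 0 := by
  ext u v
  have h1 := h (u + v)
  simp only [map_add, LinearMap.add_apply] at h1
  have h2 : (2 : K) * G u v = 0 := by linear_combination h1 - h u - h v - sG v u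
  simpa using h2

theorem ker_ne_top {l : V →ₗ[K] K} (h : l ≠ 0) : LinearMap.ker l ≠ ⊤ := fun h' =>
  h (LinearMap.ker_eq_top.1 h')

/-- a form which vanishes on a hyperplane -/
def Hyp (G : V →ₗ[K] V →ₗ[K] K) : Prop := ∃ μ : V →ₗ[K] K, μ ≠ 0 ∧ ∀ v, μ v = 0 → G v v = 0

theorem cov_hyp {D : Dat K V} (G : V →ₗ[K] V →ₗ[K] K) (sG : ∀ u v, G u v = G v u) (hG0 : G ≠ 0)
    (hG : ∀ v, D.A v v = 0 → D.B v v = 0 → G v v = 0) (h : Hyp G) : D.Cov := by
  obtain ⟨μ, hμ, hh⟩ := h
  obtain ⟨e, he⟩ : ∃ e, μ e = 1 := by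
    obtain ⟨e, he⟩ : ∃ e, μ e ≠ 0 := by
      by_contra hcon
      push Not at hcon
      exact hμ (LinearMap.ext hcon)
    exact ⟨(μ e)⁻¹ • e, by rw [map_smul, smul_eq_mul, inv_mul_cancel₀ he]⟩
  set ν : V →ₗ[K] K := (2 : K) • G e - G e e • μ with hν
  have key : ∀ v, G v v = μ v * ν v := by
    intro v
    have h1 := hh (v - μ v • e) (by rw [map_sub, map_smul, he, smul_eq_mul, mul_one, sub_self])
    simp only [map_sub, map_smul, LinearMap.sub_apply, LinearMap.smul_apply, smul_eq_mul] at h1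
    simp only [hν, LinearMap.sub_apply, LinearMap.smul_apply, smul_eq_mul]
    rw [sG v e] at h1
    linear_combination h1
  have hν0 : ν ≠ 0 := by
    intro h0
    apply hG0
    refine zero_of_quad sG fun v => ?_
    rw [key, h0, LinearMap.zero_apply, mul_zero]
  refine Dat.cov_sub ∅ Set.finite_empty {LinearMap.ker μ, LinearMap.ker ν} (Set.toFinite _) ?_ ?_
  · rintro U (rfl | rfl)
    · exact ker_ne_top hμ
    · exact ker_ne_top hν0
  · intro v hA hB _
    have h1 := hG v hA hB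
    rw [key] at h1
    rcases mul_eq_zero.1 h1 with h2 | h2
    · exact Or.inr ⟨_, Or.inl rfl, h2⟩
    · exact Or.inr ⟨_, Or.inr rfl, h2⟩

/-- the two linear forms are independent -/
def Ind (D : Dat K V) : Prop := ∀ a b : K, (∀ v, a * D.x₀ v + b * D.x₁ v = 0) → a = 0 ∧ b = 0

theorem cov_single {O : Set K} (hO : Flat O) {D : Dat K V} (hD : D.Val O)
    (G : V →ₗ[K] V →ₗ[K] K) (sG : ∀ u v, G u v = G v u)
    (hG : ∀ v, (D.A v v = 0 ∧ D.B v v = 0) ↔ G v v = 0) (hI : Ind D) : D.Cov := by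
  by_cases hG0 : G = 0
  · obtain ⟨a, b, hab, h⟩ := prop_of hO (fun v => D.x₀ v) (fun v => D.x₁ v) (PolyLine.lin D.x₀)
      (PolyLine.lin D.x₁) (fun v hv => by
        have h1 := (hG v).2 (by rw [hG0]; rfl)
        exact hD v h1.1 h1.2 hv)
    exact Dat.cov_dep hab h
  by_cases hH : Hyp G
  · exact cov_hyp G sG hG0 (fun v hA hB => (hG v).1 ⟨hA, hB⟩) hH
  refine Dat.cov_sub ∅ Set.finite_empty {LinearMap.ker G} (Set.toFinite _) ?_ ?_
  · rintro U rfl
    exact fun h => hG0 (LinearMap.ker_eq_top.1 h)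
  · intro P hA hB h0
    refine Or.inr ⟨_, rfl, ?_⟩
    have hP : G P P = 0 := (hG P).1 ⟨hA, hB⟩
    obtain ⟨u, hu, hu'⟩ : ∃ u, G P u = 0 ∧ G u u ≠ 0 := by
      by_contra hcon
      push Not at hcon
      by_cases hP0 : G P = 0
      · exact hG0 (zero_of_quad sG fun v => hcon v (by rw [hP0]; rfl))
      · exact hH ⟨G P, hP0, hcon⟩
    have hz : ∀ u, G (G u u • P - (2 * G P u) • u) (G u u • P - (2 * G P u) • u) = 0 := by
      intro u
      simp only [map_sub, map_smul, LinearMap.sub_apply, LinearMap.smul_apply, smul_eq_mul]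
      rw [hP, sG u P]
      ring
    obtain ⟨a, b, hab, h⟩ := prop_of hO
      (fun u => D.x₀ (G u u • P - (2 * G P u) • u)) (fun u => D.x₁ (G u u • P - (2 * G P u) • u))
      (by
        have h1 := ((PolyLine.bil G).mul (PolyLine.const (D.x₀ P))).sub
          (((PolyLine.const (2 : K)).mul (PolyLine.lin (G P))).mul (PolyLine.lin D.x₀))
        refine fun w v => ?_
        obtain ⟨p, hp⟩ := h1 w v
        exact ⟨p, fun s => by rw [← hp]; simp only [map_sub, map_smul, smul_eq_mul]⟩)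
      (by
        have h1 := ((PolyLine.bil G).mul (PolyLine.const (D.x₁ P))).sub
          (((PolyLine.const (2 : K)).mul (PolyLine.lin (G P))).mul (PolyLine.lin D.x₁))
        refine fun w v => ?_
        obtain ⟨p, hp⟩ := h1 w v
        exact ⟨p, fun s => by rw [← hp]; simp only [map_sub, map_smul, smul_eq_mul]⟩)
      (fun v hv => by
        have h1 := (hG _).2 (hz v)
        exact hD _ h1.1 h1.2 hv)
    have hl : a * D.x₀ P + b * D.x₁ P = 0 := by
      have h1 := h u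
      simp only [map_sub, map_smul, smul_eq_mul, hu] at h1
      have h2 : G u u * (a * D.x₀ P + b * D.x₁ P) = 0 := by linear_combination h1
      exact (mul_eq_zero.1 h2).resolve_left hu'
    rcases PolyLine.mul_zero (PolyLine.lin (G P)) (PolyLine.lin (a • D.x₀ + b • D.x₁)) (fun v => by
      have h1 := h v
      simp only [map_sub, map_smul, smul_eq_mul] at h1
      have h2 : G P v * (a * D.x₀ v + b * D.x₁ v) = 0 := by
        have h3 : (2 : K) * (G P v * (a * D.x₀ v + b * D.x₁ v)) = 0 := by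
          linear_combination G v v * hl - h1
        simpa using h3
      exact mul_eq_zero.1 h2) with h1 | h1
    · exact LinearMap.ext h1
    · exfalso
      obtain ⟨ha, hb⟩ := hI a b fun v => h1 v
      rcases hab with h | h
      · exact h ha
      · exact h hb

end Pool.Agent.T2h62.PQ
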