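import Pool.Agent.T2h62.PQ.Base

/-!
# Pencils with a common radical, and pencils all of whose members are degenerate
-/

set_option autoImplicit false
set_option linter.unusedSectionVars false

namespace Pool.Agent.T2h62.PQ

open Polynomial Pool.Agent.TH783.CE

variable {K : Type} [Field K] [CharZero K] {V : Type} [AddCommGroup V] [Module K V]

theorem cov_rad {O : Set K} (hO : Flat O) {D : Dat K V} (hD : D.Val O) (r : V) (hr : r ≠ 0)
    (hA : ∀ u, D.A r u = 0) (hB : ∀ u, D.B r u = 0) : D.Cov := by
  have key : ∀ v, D.A v v = 0 → D.B v v = 0 → D.x₀ v ≠ 0 →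
      ∃ c, D.x₁ v = c * D.x₀ v ∧ D.x₁ r = c * D.x₀ r := by
    intro v h1 h2 h0
    obtain ⟨c, hc⟩ := hO (C (D.x₀ v) + C (D.x₀ r) * X) (C (D.x₁ v) + C (D.x₁ r) * X)
      (fun h => h0 (by
        have := congrArg (eval 0) h
        simpa using this))
      (fun s hs => by
        have e0 : (C (D.x₀ v) + C (D.x₀ r) * X).eval s = D.x₀ (v + s • r) := by
          simp only [eval_add, eval_C, eval_mul, eval_X, map_add, map_smul, smul_eq_mul]
          ring
        have e1 : (C (D.x₁ v) + C (D.x₁ r) * X).eval s = D.x₁ (v + s • r) := by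
          simp only [eval_add, eval_C, eval_mul, eval_X, map_add, map_smul, smul_eq_mul]
          ring
        rw [e0] at hs
        rw [e0, e1]
        refine hD _ ?_ ?_ hs
        · have := D.sA v r
          simp [hA, h1, this]
        · have := D.sB v r
          simp [hB, h2, this])
    refine ⟨c, ?_, ?_⟩
    · have := congrArg (eval 0) hc
      simpa using this
    · have h3 := congrArg (eval 1) hc
      have h4 := congrArg (eval 0) hc
      simp at h3 h4
      linear_combination h3 - h4
  by_cases h0 : D.x₀ r = 0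
  · by_cases hne : ∃ v, D.A v v = 0 ∧ D.B v v = 0 ∧ D.x₀ v ≠ 0
    · obtain ⟨v₀, a1, a2, a3⟩ := hne
      obtain ⟨c, -, hc⟩ := key v₀ a1 a2 a3
      have h1 : D.x₁ r = 0 := by rw [hc, h0, mul_zero]
      obtain ⟨ρ, hρ⟩ : ∃ ρ : V →ₗ[K] K, ρ r ≠ 0 := by
        by_contra hcon
        push Not at hcon
        exact hr ((Module.forall_dual_apply_eq_zero_iff K r).1 hcon)
      refine ⟨∅, {LinearMap.ker ρ}, Set.finite_empty, Set.toFinite _, ?_, ?_⟩
      · rintro U rfl h
        rw [LinearMap.ker_eq_top.1 h] at hρ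
        exact hρ rfl
      · intro v h2 h3 h4
        refine Or.inr ⟨_, rfl, v - (ρ v / ρ r) • r, ?_, ?_, ?_, ?_, ?_⟩
        · rw [LinearMap.mem_ker, map_sub, map_smul, smul_eq_mul, div_mul_cancel₀ _ hρ, sub_self]
        · have := D.sA v r
          simp [hA, h2, this]
        · have := D.sB v r
          simp [hB, h3, this]
        · simp [h0, h4]
        · simp [h0, h1]
    · push Not at hne
      exact Dat.cov_one 0 fun v h1 h2 h3 => absurd (hne v h1 h2) h3
  · refine Dat.cov_one (D.x₁ r / D.x₀ r) fun v h1 h2 h3 => ?_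
    obtain ⟨c, hc1, hc2⟩ := key v h1 h2 h3
    rw [hc1, hc2, mul_div_cancel_right₀ _ h3, mul_div_cancel_right₀ _ h0]

/-- a chain of vectors of a pencil whose members are all degenerate -/
theorem chain_of_irregular [FiniteDimensional K V] (A B : V →ₗ[K] V →ₗ[K] K)
    (h : ∀ t : K, ∃ v, v ≠ 0 ∧ ∀ u, A u v + t * B u v = 0) :
    ∃ v : ℕ → V, (∃ i, v i ≠ 0) ∧ (∃ m, ∀ i, m ≤ i → v i = 0) ∧ (∀ u, A u (v 0) = 0) ∧
      ∀ i u, A u (v (i + 1)) + B u (v i) = 0 := by
  classical
  let b := Module.finBasis K V
  set n := Module.finrank K V with hn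
  let M : Matrix (Fin n) (Fin n) K[X] := Matrix.of fun i j =>
    C (A (b i) (b j)) + X * C (B (b i) (b j))
  have hdet : M.det = 0 := by
    refine Polynomial.funext fun t => ?_
    rw [eval_zero, ← coe_evalRingHom, RingHom.map_det]
    obtain ⟨v, hv, hv'⟩ := h t
    refine Matrix.exists_mulVec_eq_zero_iff.1 ⟨fun j => b.repr v j, ?_, ?_⟩
    · intro h0
      apply hv
      have h1 : b.repr v = 0 := by
        ext j
        exact congrFun h0 j
      exact b.repr.map_eq_zero_iff.1 h1
    · funext i
      have h1 := hv' (b i)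
      have h2 : v = ∑ j, b.repr v j • b j := (b.sum_repr v).symm
      rw [h2] at h1
      simp only [map_sum, map_smul, smul_eq_mul] at h1
      rw [Pi.zero_apply, ← h1, Matrix.mulVec, dotProduct, Finset.mul_sum, ← Finset.sum_add_distrib]
      refine Finset.sum_congr rfl fun j _ => ?_
      simp only [M, RingHom.mapMatrix_apply, Matrix.map_apply, Matrix.of_apply, coe_evalRingHom,
        eval_add, eval_mul, eval_C, eval_X]
      ring
  obtain ⟨w, hw, hw'⟩ := Matrix.exists_mulVec_eq_zero_iff.2 hdet
  have hrow : ∀ i, ∑ j, (C (A (b i) (b j)) + X * C (B (b i) (b j))) * w j = 0 := fun i =>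
    congrFun hw' i
  set v : ℕ → V := fun k => ∑ j, (w j).coeff k • b j with hvdef
  have hlin : ∀ (F : V →ₗ[K] V →ₗ[K] K) (k : ℕ) (u : V),
      F u (v k) = ∑ j, (w j).coeff k * F u (b j) := by
    intro F k u
    simp only [hvdef, map_sum, map_smul, smul_eq_mul]
  have ext : ∀ (l : V →ₗ[K] K), (∀ i, l (b i) = 0) → ∀ u, l u = 0 := by
    intro l hl u
    have : l = 0 := b.ext fun i => by rw [hl, LinearMap.zero_apply]
    rw [this, LinearMap.zero_apply]
  refine ⟨v, ?_, ?_, ?_, ?_⟩
  · obtain ⟨j, hj⟩ : ∃ j, w j ≠ 0 := by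
      by_contra hcon
      push Not at hcon
      exact hw (funext hcon)
    obtain ⟨k, hk⟩ : ∃ k, (w j).coeff k ≠ 0 := by
      by_contra hcon
      push Not at hcon
      exact hj (Polynomial.ext fun k => by rw [hcon k, coeff_zero])
    refine ⟨k, fun h0 => hk ?_⟩
    have h1 := Fintype.linearIndependent_iff.1 b.linearIndependent (fun j => (w j).coeff k) h0
    exact h1 j
  · refine ⟨(Finset.univ.sup fun j => (w j).natDegree) + 1, fun i hi => ?_⟩
    refine Finset.sum_eq_zero fun j _ => ?_
    rw [coeff_eq_zero_of_natDegree_lt, zero_smul]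
    have := Finset.le_sup (f := fun j => (w j).natDegree) (Finset.mem_univ j)
    omega
  · refine ext (A.flip (v 0)) fun i => ?_
    rw [LinearMap.flip_apply, hlin]
    have h1 := congrArg (fun p => coeff p 0) (hrow i)
    simp only [finsetSum_coeff, add_mul, coeff_add, coeff_C_mul, mul_assoc, coeff_X_mul_zero,
      coeff_zero, add_zero] at h1
    rw [← h1]
    exact Finset.sum_congr rfl fun j _ => mul_comm _ _
  · intro k
    refine ext (A.flip (v (k + 1)) + B.flip (v k)) fun i => ?_
    rw [LinearMap.add_apply, LinearMap.flip_apply, LinearMap.flip_apply, hlin, hlin,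
      ← Finset.sum_add_distrib]
    have h1 := congrArg (fun p => coeff p (k + 1)) (hrow i)
    simp only [finsetSum_coeff, add_mul, coeff_add, coeff_C_mul, mul_assoc, coeff_X_mul,
      coeff_zero] at h1
    rw [← h1]
    exact Finset.sum_congr rfl fun j _ => by ring

theorem cov_irr [FiniteDimensional K V] {O : Set K} (hO : Flat O) {D : Dat K V} (hD : D.Val O)
    (h : ∀ t : K, ∃ v, v ≠ 0 ∧ ∀ u, D.A u v + t * D.B u v = 0)
    (hrad : ∀ r, (∀ u, D.A r u = 0) → (∀ u, D.B r u = 0) → r = 0) : D.Cov := by
  classical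
  obtain ⟨v, ⟨i₁, hi₁⟩, ⟨m, hm⟩, h0, hs⟩ := chain_of_irregular D.A D.B h
  have iso : ∀ i j, D.A (v i) (v j) = 0 := by
    intro i
    induction i with
    | zero =>
      intro j
      rw [D.sA]
      exact h0 _
    | succ i ih =>
      intro j
      have h1 := hs i (v j)
      have h2 := hs j (v i)
      rw [ih (j + 1), zero_add, D.sB] at h2
      rw [h2, add_zero, D.sA] at h1
      exact h1
  have isoB : ∀ i j, D.B (v i) (v j) = 0 := by
    intro i j
    have h1 := hs j (v i)
    rw [iso, zero_add] at h1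
    exact h1
  obtain ⟨k, hk, hk'⟩ : ∃ k, D.A (v (k + 1)) ≠ 0 ∧ D.A (v (k + 2)) = 0 := by
    by_contra hcon
    push Not at hcon
    have hall : ∀ i, D.A (v i) = 0 := by
      intro i
      rcases Nat.eq_zero_or_pos i with rfl | hi
      · ext u
        rw [D.sA]
        exact h0 _
      · obtain ⟨i, rfl⟩ := Nat.exists_eq_succ_of_ne_zero hi.ne'
        by_contra hne
        have : ∀ j, D.A (v (i + 1 + j)) ≠ 0 := by
          intro j
          induction j with
          | zero => exact hne
          | succ j ih =>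
            have e : i + 1 + j = i + j + 1 := by ring
            have e' : i + 1 + (j + 1) = i + j + 2 := by ring
            rw [e] at ih
            rw [e']
            exact hcon (i + j) ih
        apply this m
        rw [hm _ (by omega), map_zero]
    apply hi₁
    refine hrad _ (fun u => by rw [hall]; rfl) fun u => ?_
    have h1 := hs i₁ u
    rw [D.sA, hall, LinearMap.zero_apply, zero_add, D.sB] at h1
    exact h1
  set e := v (k + 1) with he
  set f := v k with hf
  have Be : ∀ u, D.B u e = 0 := by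
    intro u
    have h1 := hs (k + 1) u
    rw [D.sA, hk', LinearMap.zero_apply, zero_add] at h1
    exact h1
  have Bf : ∀ u, D.B u f = - D.A e u := by
    intro u
    have h1 := hs k u
    rw [D.sA] at h1
    linear_combination h1
  set β := D.A e with hβ
  set γ := D.A f with hγ
  set z : V → V := fun u => (2 * β u * β u) • u - (β u * D.A u u + D.B u u * γ u) • e +
    (β u * D.B u u) • f with hz
  have Ae : ∀ u, D.A u e = β u := fun u => D.sA u e
  have Af : ∀ u, D.A u f = γ u := fun u => D.sA u f
  have bee : β e = 0 := iso _ _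
  have bef : β f = 0 := iso _ _
  have gee : γ e = 0 := iso _ _
  have gef : γ f = 0 := iso _ _
  have hzA : ∀ u, D.A (z u) (z u) = 0 := by
    intro u
    simp only [hz, map_add, map_sub, map_smul, LinearMap.add_apply, LinearMap.sub_apply,
      LinearMap.smul_apply, smul_eq_mul, Ae, Af, ← hβ, ← hγ, bee, bef, gee, gef]
    ring
  have hzB : ∀ u, D.B (z u) (z u) = 0 := by
    intro u
    have b1 : D.B e u = 0 := by rw [D.sB, Be]
    have b2 : D.B f u = - β u := by rw [D.sB, Bf]
    simp only [hz, map_add, map_sub, map_smul, LinearMap.add_apply, LinearMap.sub_apply,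
      LinearMap.smul_apply, smul_eq_mul, Be, Bf, b1, b2, bee, bef]
    ring
  have hpl : ∀ x : V →ₗ[K] K, PolyLine fun u => x (z u) := by
    intro x
    have h1 : PolyLine fun u => 2 * β u * β u * x u - (β u * D.A u u + D.B u u * γ u) * x e +
        β u * D.B u u * x f :=
      (((((PolyLine.const (2 : K)).mul (PolyLine.lin β)).mul (PolyLine.lin β)).mul
        (PolyLine.lin x)).sub ((((PolyLine.lin β).mul (PolyLine.bil D.A)).add
        ((PolyLine.bil D.B).mul (PolyLine.lin γ))).mul (PolyLine.const (x e)))).add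
        (((PolyLine.lin β).mul (PolyLine.bil D.B)).mul (PolyLine.const (x f)))
    refine fun w v => ?_
    obtain ⟨p, hp⟩ := h1 w v
    exact ⟨p, fun s => by rw [← hp]; simp only [hz, map_add, map_sub, map_smul, smul_eq_mul]⟩
  obtain ⟨a, b, hab, hh⟩ := prop_of hO (fun u => D.x₀ (z u)) (fun u => D.x₁ (z u)) (hpl _) (hpl _)
    fun u hu => hD _ (hzA u) (hzB u) hu
  refine Dat.cov_sub {-a / b} (Set.finite_singleton _) {LinearMap.ker β} (Set.toFinite _) ?_ ?_
  · rintro U rfl
    exact ker_ne_top hk
  · intro P hPA hPB hP0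
    by_cases hβP : β P = 0
    · exact Or.inr ⟨_, rfl, hβP⟩
    · left
      have h1 := hh P
      simp only [hz, map_add, map_sub, map_smul, smul_eq_mul, hPA, hPB] at h1
      have h2 : (2 * β P * β P) * (a * D.x₀ P + b * D.x₁ P) = 0 := by linear_combination h1
      have h3 : (2 * β P * β P) ≠ 0 := mul_ne_zero (mul_ne_zero two_ne_zero hβP) hβP
      exact Dat.ratio_eq hab hP0 ((mul_eq_zero.1 h2).resolve_left h3)

end Pool.Agent.T2h62.PQ
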