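import Pool.Agent.T2h62.PQ.Tan
import Pool.Agent.N455.PR.Alg

/-!
# Pencils of quadratic forms in at most four variables: curves
-/

set_option autoImplicit false
set_option linter.unusedSectionVars false

namespace Pool.Agent.T2h62.PQ

open Polynomial Pool.Agent.TH783.CE

variable {K : Type} [Field K] [CharZero K] {V : Type} [AddCommGroup V] [Module K V]

/-- polynomial on planes -/
def PolyPlane (f : V → K) : Prop := ∀ u v w : V, ∃ p : K[X][X], ∀ a z : K,
  p.evalEval a z = f (u + a • v + z • w)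

theorem PolyPlane.lin (l : V →ₗ[K] K) : PolyPlane fun v => l v := fun u v w =>
  ⟨C (C (l u) + C (l v) * X) + C (C (l w)) * X, fun a z => by
    simp only [evalEval, eval_add, eval_mul, eval_C, eval_X, map_add, map_smul, smul_eq_mul]
    ring⟩

theorem PolyPlane.const (c : K) : PolyPlane fun _ : V => c := fun _ _ _ =>
  ⟨C (C c), fun a z => by simp only [evalEval, eval_C]⟩

theorem PolyPlane.add {f g : V → K} (hf : PolyPlane f) (hg : PolyPlane g) :
    PolyPlane fun v => f v + g v := fun u v w => by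
  obtain ⟨p, hp⟩ := hf u v w
  obtain ⟨q, hq⟩ := hg u v w
  exact ⟨p + q, fun a z => by rw [evalEval_add, hp, hq]⟩

theorem PolyPlane.sub {f g : V → K} (hf : PolyPlane f) (hg : PolyPlane g) :
    PolyPlane fun v => f v - g v := fun u v w => by
  obtain ⟨p, hp⟩ := hf u v w
  obtain ⟨q, hq⟩ := hg u v w
  exact ⟨p - q, fun a z => by rw [evalEval_sub, hp, hq]⟩

theorem PolyPlane.mul {f g : V → K} (hf : PolyPlane f) (hg : PolyPlane g) :
    PolyPlane fun v => f v * g v := fun u v w => by
  obtain ⟨p, hp⟩ := hf u v w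
  obtain ⟨q, hq⟩ := hg u v w
  exact ⟨p * q, fun a z => by rw [evalEval_mul, hp, hq]⟩

theorem PolyPlane.bil (B : V →ₗ[K] V →ₗ[K] K) : PolyPlane fun v => B v v := fun u v w =>
  ⟨C (C (B u u) + C (B u v + B v u) * X + C (B v v) * X ^ 2) +
      C (C (B u w + B w u) + C (B v w + B w v) * X) * X + C (C (B w w)) * X ^ 2, fun a z => by
    simp only [evalEval, eval_add, eval_mul, eval_C, eval_X, eval_pow, map_add, map_smul,
      LinearMap.add_apply, LinearMap.smul_apply, smul_eq_mul]
    ring⟩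

/-- elimination of one variable -/
theorem elim_aux (G C : V →ₗ[K] V →ₗ[K] K) (sG : ∀ u v, G u v = G v u)
    (sC : ∀ u v, C u v = C v u) (e : V) (he : G e e = 0) (hH : ¬ Hyp G)
    (hGC : ∀ k : K, C ≠ k • G) (hG0 : G ≠ 0) :
    ∃ (R : V → K) (d : ℕ), PolyPlane R ∧ PolyLine R ∧ (∀ (t : K) v, R (t • v) = t ^ d * R v) ∧
      (∃ v, R v ≠ 0) ∧ (∀ v (c : K), R (v + c • e) = R v) ∧
      ∀ v, G v v = 0 → C v v = 0 → R v = 0 := by
  by_cases hg : G e = 0
  · refine ⟨fun v => G v v, 2, PolyPlane.bil G, PolyLine.bil G, fun t v => ?_, ?_, fun v c => ?_,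
      fun v h _ => h⟩
    · simp only [map_smul, LinearMap.smul_apply, smul_eq_mul]
      ring
    · by_contra hcon
      push Not at hcon
      exact hG0 (zero_of_quad sG hcon)
    · simp only [map_add, map_smul, LinearMap.add_apply, LinearMap.smul_apply, smul_eq_mul]
      rw [sG v e, hg]
      simp
  · refine ⟨fun v => 4 * (G e v * G e v) * C v v - 4 * (G e v * C e v) * G v v +
      C e e * (G v v * G v v), 4, ?_, ?_, fun t v => ?_, ?_, fun v c => ?_, fun v h1 h2 => ?_⟩
    · exact ((((PolyPlane.const (4 : K)).mul ((PolyPlane.lin (G e)).mul (PolyPlane.lin (G e)))).mul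
        (PolyPlane.bil C)).sub (((PolyPlane.const (4 : K)).mul ((PolyPlane.lin (G e)).mul
        (PolyPlane.lin (C e)))).mul (PolyPlane.bil G))).add
        ((PolyPlane.const (C e e)).mul ((PolyPlane.bil G).mul (PolyPlane.bil G)))
    · exact ((((PolyLine.const (4 : K)).mul ((PolyLine.lin (G e)).mul (PolyLine.lin (G e)))).mul
        (PolyLine.bil C)).sub (((PolyLine.const (4 : K)).mul ((PolyLine.lin (G e)).mul
        (PolyLine.lin (C e)))).mul (PolyLine.bil G))).add
        ((PolyLine.const (C e e)).mul ((PolyLine.bil G).mul (PolyLine.bil G)))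
    · simp only [map_smul, LinearMap.smul_apply, smul_eq_mul]
      ring
    · by_contra hcon
      push Not at hcon
      obtain ⟨u, hu, hu'⟩ : ∃ u, G e u = 0 ∧ G u u ≠ 0 := by
        by_contra hc
        push Not at hc
        exact hH ⟨G e, hg, hc⟩
      have hCee : C e e = 0 := by
        have h1 := hcon u
        rw [hu] at h1
        have h2 : C e e * (G u u * G u u) = 0 := by linear_combination h1
        exact (mul_eq_zero.1 h2).resolve_right (mul_ne_zero hu' hu')
      have h1 : ∀ v, G e v * C v v - C e v * G v v = 0 := by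
        rcases PolyLine.mul_zero (PolyLine.lin (G e)) (((PolyLine.lin (G e)).mul
          (PolyLine.bil C)).sub ((PolyLine.lin (C e)).mul (PolyLine.bil G))) (fun v => by
          have h2 := hcon v
          rw [hCee] at h2
          have h3 : (4 : K) * (G e v * (G e v * C v v - C e v * G v v)) = 0 := by
            linear_combination h2
          exact mul_eq_zero.1 ((mul_eq_zero.1 h3).resolve_left (by norm_num))) with h | h
        · exact absurd (LinearMap.ext h) hg
        · exact h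
      have h2 : ∀ v, G e v = 0 → C e v = 0 := by
        intro v hv
        have h3 : ∀ w ∈ LinearMap.ker (G e), C e w * G w w = 0 := by
          intro w hw
          have := h1 w
          rw [LinearMap.mem_ker.1 hw] at this
          linear_combination -this
        rcases PolyLine.mul_zero_on (PolyLine.lin (C e)) (PolyLine.bil G) (LinearMap.ker (G e))
          (fun w hw => mul_eq_zero.1 (h3 w hw)) with h | h
        · exact h v hv
        · exact absurd (h u hu) hu'
      obtain ⟨k, hk⟩ := prop_of_ker (G e) (C e) h2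
      have h3 : ∀ v, C v v - k * G v v = 0 := by
        rcases PolyLine.mul_zero (PolyLine.lin (G e)) ((PolyLine.bil C).sub
          ((PolyLine.const k).mul (PolyLine.bil G))) (fun v => by
          have h4 := h1 v
          rw [hk v] at h4
          refine mul_eq_zero.1 ?_
          linear_combination h4) with h | h
        · exact absurd (LinearMap.ext h) hg
        · exact h
      apply hGC k
      have h4 : C - k • G = 0 := zero_of_quad (fun u v => by
        simp only [LinearMap.sub_apply, LinearMap.smul_apply, smul_eq_mul]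
        rw [sG, sC]) fun v => by
          simpa using h3 v
      exact sub_eq_zero.1 h4
    · simp only [map_add, map_smul, LinearMap.add_apply, LinearMap.smul_apply, smul_eq_mul]
      rw [he, sG v e, sC v e]
      ring
    · simp only [h1, h2, mul_zero, sub_zero, add_zero]

theorem elim_var (D : Dat K V) (hP : ∀ c d : K, c • D.A + d • D.B = 0 → c = 0 ∧ d = 0)
    (hH : ∀ c d : K, (c ≠ 0 ∨ d ≠ 0) → ¬ Hyp (c • D.A + d • D.B)) (e : V) :
    ∃ (R : V → K) (d : ℕ), PolyPlane R ∧ PolyLine R ∧ (∀ (t : K) v, R (t • v) = t ^ d * R v) ∧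
      (∃ v, R v ≠ 0) ∧ (∀ v (c : K), R (v + c • e) = R v) ∧
      ∀ v, D.A v v = 0 → D.B v v = 0 → R v = 0 := by
  have hs : ∀ c d : K, ∀ u v, (c • D.A + d • D.B) u v = (c • D.A + d • D.B) v u := by
    intro c d u v
    simp only [LinearMap.add_apply, LinearMap.smul_apply, smul_eq_mul]
    rw [D.sA, D.sB]
  obtain ⟨c, d, hcd, he⟩ : ∃ c d : K, (c ≠ 0 ∨ d ≠ 0) ∧ (c • D.A + d • D.B) e e = 0 := by
    by_cases h : D.B e e = 0
    · by_cases h' : D.A e e = 0
      · exact ⟨1, 0, Or.inl one_ne_zero, by simp [h']⟩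
      · exact ⟨0, 1, Or.inr one_ne_zero, by simp [h]⟩
    · refine ⟨D.B e e, -D.A e e, Or.inl h, ?_⟩
      simp only [LinearMap.add_apply, LinearMap.smul_apply, smul_eq_mul]
      ring
  have hG0 : c • D.A + d • D.B ≠ 0 := by
    intro h0
    obtain ⟨h1, h2⟩ := hP c d h0
    rcases hcd with h | h
    · exact h h1
    · exact h h2
  by_cases hc : c = 0
  · have hd : d ≠ 0 := by
      rcases hcd with h | h
      · exact absurd hc h
      · exact h
    obtain ⟨R, n, h1, h2, h3, h4, h5, h6⟩ := elim_aux (c • D.A + d • D.B) D.A (hs c d) D.sA e he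
      (hH c d hcd) (fun k hk => by
        obtain ⟨h1, -⟩ := hP 1 (-(k * d)) (by
          rw [hc] at hk
          rw [one_smul, hk]
          ext u v
          simp only [zero_smul, zero_add, LinearMap.add_apply, LinearMap.smul_apply, smul_eq_mul,
            LinearMap.zero_apply]
          ring)
        exact one_ne_zero h1) hG0
    exact ⟨R, n, h1, h2, h3, h4, h5, fun v hA hB => h6 v (by simp [hA, hB]) hA⟩
  · obtain ⟨R, n, h1, h2, h3, h4, h5, h6⟩ := elim_aux (c • D.A + d • D.B) D.B (hs c d) D.sB e he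
      (hH c d hcd) (fun k hk => by
        obtain ⟨h1, h2⟩ := hP (k * c) (k * d - 1) (by
          ext u v
          have := congrArg (fun F => F u v) hk
          simp only [LinearMap.add_apply, LinearMap.smul_apply, smul_eq_mul] at this
          simp only [LinearMap.add_apply, LinearMap.smul_apply, smul_eq_mul,
            LinearMap.zero_apply]
          linear_combination -this)
        have hk0 : k = 0 := (mul_eq_zero.1 h1).resolve_right hc
        rw [hk0, zero_mul, zero_sub, neg_eq_zero] at h2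
        exact one_ne_zero h2) hG0
    exact ⟨R, n, h1, h2, h3, h4, h5, fun v hA hB => h6 v (by simp [hA, hB]) hB⟩

theorem span_two [FiniteDimensional K V] (N : Submodule K V) (h : Module.finrank K N ≤ 2) :
    ∃ e e' : V, e ∈ N ∧ e' ∈ N ∧ ∀ n ∈ N, ∃ z z' : K, n = z • e + z' • e' := by
  let f : (Fin 2 → K) →ₗ[K] N := (Module.finBasis K N).equivFun.symm.toLinearMap ∘ₗ
    LinearMap.funLeft K K (Fin.castLE h)
  have hf : Function.Surjective f := by
    intro y
    obtain ⟨x, hx⟩ := LinearMap.funLeft_surjective_of_injective K K _ (Fin.castLE_injective h)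
      ((Module.finBasis K N).equivFun y)
    refine ⟨x, ?_⟩
    show (Module.finBasis K N).equivFun.symm (LinearMap.funLeft K K (Fin.castLE h) x) = y
    rw [hx]
    exact LinearEquiv.symm_apply_apply _ _
  refine ⟨f (Pi.single 0 1), f (Pi.single 1 1), (f _).2, (f _).2, fun n hn => ?_⟩
  obtain ⟨x, hx⟩ := hf ⟨n, hn⟩
  refine ⟨x 0, x 1, ?_⟩
  have h1 : x = x 0 • Pi.single 0 1 + x 1 • Pi.single 1 1 := by
    funext i
    fin_cases i <;> simp
  have h2 := congrArg (fun y => ((f y : N) : V)) h1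
  simp only [map_add, map_smul, Submodule.coe_add, Submodule.coe_smul] at h2
  rw [← h2, hx]

/-- the polynomial of a form in four variables -/
noncomputable def fp (ε : Fin 4 → V) (B : V →ₗ[K] V →ₗ[K] K) : MvPolynomial (Fin 2 ⊕ Fin 2) K :=
  ∑ i, ∑ j, MvPolynomial.C (B (ε i) (ε j)) *
    (![1, MvPolynomial.X (Sum.inl 0), MvPolynomial.X (Sum.inr 0), MvPolynomial.X (Sum.inr 1)] :
      Fin 4 → MvPolynomial (Fin 2 ⊕ Fin 2) K) i *
    (![1, MvPolynomial.X (Sum.inl 0), MvPolynomial.X (Sum.inr 0), MvPolynomial.X (Sum.inr 1)] :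
      Fin 4 → MvPolynomial (Fin 2 ⊕ Fin 2) K) j

theorem eval_fp (ε : Fin 4 → V) (B : V →ₗ[K] V →ₗ[K] K) (a : K) (w : Fin 2 → K) :
    MvPolynomial.eval (Sum.elim ![a, 0] w) (fp ε B) =
      B (ε 0 + a • ε 1 + w 0 • ε 2 + w 1 • ε 3) (ε 0 + a • ε 1 + w 0 • ε 2 + w 1 • ε 3) := by
  simp only [fp, Fin.sum_univ_four]
  simp
  ring

theorem thin_low {O : Set K} (hO : Flat O) [FiniteDimensional K V] {D : Dat K V}
    (hD : D.Val O) (hdim : Module.finrank K V ≤ 4) (hI : Ind D)
    (hP : ∀ c d : K, c • D.A + d • D.B = 0 → c = 0 ∧ d = 0)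
    (hH : ∀ c d : K, (c ≠ 0 ∨ d ≠ 0) → ¬ Hyp (c • D.A + d • D.B)) : Thin (D.vals ⊤) := by
  classical
  -- coordinates
  obtain ⟨e₀, he0, he0'⟩ : ∃ e, D.x₀ e = 1 ∧ D.x₁ e = 0 := by
    have : ∃ e, D.x₁ e = 0 ∧ D.x₀ e ≠ 0 := by
      by_contra hcon
      push Not at hcon
      obtain ⟨c, hc⟩ := prop_of_ker D.x₁ D.x₀ hcon
      exact one_ne_zero (hI 1 (-c) fun v => by rw [hc]; ring).1
    obtain ⟨e, h1, h2⟩ := this
    exact ⟨(D.x₀ e)⁻¹ • e, by rw [map_smul, smul_eq_mul, inv_mul_cancel₀ h2],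
      by rw [map_smul, h1, smul_zero]⟩
  obtain ⟨e₁, he1, he1'⟩ : ∃ e, D.x₀ e = 0 ∧ D.x₁ e = 1 := by
    have : ∃ e, D.x₀ e = 0 ∧ D.x₁ e ≠ 0 := by
      by_contra hcon
      push Not at hcon
      obtain ⟨c, hc⟩ := prop_of_ker D.x₀ D.x₁ hcon
      exact one_ne_zero (hI (-c) 1 fun v => by rw [hc]; ring).2
    obtain ⟨e, h1, h2⟩ := this
    exact ⟨(D.x₁ e)⁻¹ • e, by rw [map_smul, h1, smul_zero],
      by rw [map_smul, smul_eq_mul, inv_mul_cancel₀ h2]⟩
  set N : Submodule K V := LinearMap.ker D.x₀ ⊓ LinearMap.ker D.x₁ with hN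
  have hNdim : Module.finrank K N ≤ 2 := by
    let F : V →ₗ[K] (K × K) := D.x₀.prod D.x₁
    have hF : Function.Surjective F := by
      rintro ⟨p, q⟩
      refine ⟨p • e₀ + q • e₁, ?_⟩
      simp [F, he0, he0', he1, he1']
    have h1 := LinearMap.finrank_range_add_finrank_ker F
    rw [LinearMap.range_eq_top.2 hF, finrank_top, Module.finrank_prod, Module.finrank_self] at h1
    have h2 : LinearMap.ker F = N := LinearMap.ker_prod _ _
    rw [h2] at h1
    omega
  obtain ⟨e, e', hee, hee', hspan⟩ := span_two N hNdim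
  have hdec : ∀ v, D.x₀ v ≠ 0 → ∃ z z' : K, (D.x₀ v)⁻¹ • v =
      e₀ + (D.x₁ v / D.x₀ v) • e₁ + z • e + z' • e' := by
    intro v hv
    obtain ⟨z, z', hz⟩ := hspan ((D.x₀ v)⁻¹ • v - (e₀ + (D.x₁ v / D.x₀ v) • e₁)) ⟨by
      show D.x₀ _ = 0
      rw [map_sub, map_add, map_smul, map_smul, he0, he1, smul_eq_mul,
        inv_mul_cancel₀ hv, smul_zero, add_zero, sub_self], by
      show D.x₁ _ = 0
      rw [map_sub, map_add, map_smul, map_smul, he0', he1', smul_eq_mul, smul_eq_mul]
      field_simp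
      ring⟩
    refine ⟨z, z', ?_⟩
    rw [sub_eq_iff_eq_add] at hz
    rw [hz]
    abel
  set ε : Fin 4 → V := ![e₀, e₁, e, e'] with hε
  have heval : ∀ (B : V →ₗ[K] V →ₗ[K] K) (a : K) (w : Fin 2 → K),
      MvPolynomial.eval (Sum.elim ![a, 0] w) (fp ε B) =
        B (e₀ + a • e₁ + w 0 • e + w 1 • e') (e₀ + a • e₁ + w 0 • e + w 1 • e') :=
    fun B a w => eval_fp ε B a w
  obtain ⟨R, dR, hR1, hR2, hR3, ⟨vR, hR4⟩, hR5, hR6⟩ := elim_var D hP hH e'
  obtain ⟨S, dS, hS1, hS2, hS3, ⟨vS, hS4⟩, hS5, hS6⟩ := elim_var D hP hH e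
  obtain ⟨p, hp⟩ := hR1 e₀ e₁ e
  obtain ⟨q, hq⟩ := hS1 e₀ e₁ e'
  have nz : ∀ (R : V → K) (dR : ℕ) (hR2 : PolyLine R)
      (hR3 : ∀ (t : K) v, R (t • v) = t ^ dR * R v) (vR : V) (hR4 : R vR ≠ 0),
      ∃ a z z' : K, R (e₀ + a • e₁ + z • e + z' • e') ≠ 0 := by
    intro R dR hR2 hR3 vR hR4
    obtain ⟨v, hv1, hv2⟩ : ∃ v, D.x₀ v ≠ 0 ∧ R v ≠ 0 := by
      by_contra hcon
      push Not at hcon
      rcases PolyLine.mul_zero (PolyLine.lin D.x₀) hR2 (fun v => by
        by_cases h : D.x₀ v = 0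
        · exact Or.inl h
        · exact Or.inr (hcon v h)) with h | h
      · have := h e₀
        rw [he0] at this
        exact one_ne_zero this
      · exact hR4 (h vR)
    obtain ⟨z, z', hz⟩ := hdec v hv1
    refine ⟨D.x₁ v / D.x₀ v, z, z', ?_⟩
    rw [← hz, hR3]
    exact mul_ne_zero (pow_ne_zero _ (inv_ne_zero hv1)) hv2
  have hp0 : p ≠ 0 := by
    obtain ⟨a, z, z', h⟩ := nz R dR hR2 hR3 vR hR4
    rintro rfl
    rw [hR5, ← hp] at h
    exact h (by rw [evalEval_zero])
  have hq0 : q ≠ 0 := by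
    obtain ⟨a, z, z', h⟩ := nz S dS hS2 hS3 vS hS4
    rintro rfl
    rw [show e₀ + a • e₁ + z • e + z' • e' = e₀ + a • e₁ + z' • e' + z • e by abel, hS5, ← hq] at h
    exact h (by rw [evalEval_zero])
  have hthin := Pool.Agent.N455.PR.thin_alg hO (n := 2) (s := 2) ![fp ε D.A, fp ε D.B]
    (fun P => P 0 ∧ P 1) 0 ![p, q] (fun i => by fin_cases i; exacts [hp0, hq0])
    (fun a w hw i => by
      obtain ⟨h1, h2⟩ := hw
      simp only [Matrix.cons_val_zero, Matrix.cons_val_one] at h1 h2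
      rw [heval] at h1 h2
      fin_cases i
      · show p.evalEval a (w 0) = 0
        rw [hp, ← hR5 _ (w 1)]
        exact hR6 _ h1 h2
      · show q.evalEval a (w 1) = 0
        rw [hq, ← hS5 _ (w 0)]
        rw [show e₀ + a • e₁ + w 1 • e' + w 0 • e = e₀ + a • e₁ + w 0 • e + w 1 • e' by abel]
        exact hS6 _ h1 h2)
    (fun a w hw => by
      obtain ⟨h1, h2⟩ := hw
      simp only [Matrix.cons_val_zero, Matrix.cons_val_one] at h1 h2
      rw [heval] at h1 h2
      have h3 : D.x₀ (e₀ + a • e₁ + w 0 • e + w 1 • e') = 1 := by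
        have m1 : D.x₀ e = 0 := hee.1
        have m2 : D.x₀ e' = 0 := hee'.1
        simp [he0, he1, m1, m2]
      have h4 : D.x₁ (e₀ + a • e₁ + w 0 • e + w 1 • e') = a := by
        have m1 : D.x₁ e = 0 := hee.2
        have m2 : D.x₁ e' = 0 := hee'.2
        simp [he0', he1', m1, m2]
      have h5 := hD _ h1 h2 (by rw [h3]; exact one_ne_zero)
      rwa [h3, h4, div_one] at h5)
  refine hthin.mono ?_
  rintro a ⟨v, -, hA, hB, h0, rfl⟩
  obtain ⟨z, z', hz⟩ := hdec v h0
  refine ⟨![z, z'], ?_, ?_⟩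
  · show MvPolynomial.eval _ (fp ε D.A) = 0
    rw [heval]
    simp only [Matrix.cons_val_zero, Matrix.cons_val_one]
    rw [← hz]
    simp [hA]
  · show MvPolynomial.eval _ (fp ε D.B) = 0
    rw [heval]
    simp only [Matrix.cons_val_zero, Matrix.cons_val_one]
    rw [← hz]
    simp [hB]

end Pool.Agent.T2h62.PQ
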