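import Pool.Agent.T2h62.PQ.Tan

/-!
# Regular pencils in at least five variables
-/

set_option autoImplicit false
set_option linter.unusedSectionVars false

namespace Pool.Agent.T2h62.PQ

open Polynomial Pool.Agent.TH783.CE

variable {K : Type} [Field K] [CharZero K] {V : Type} [AddCommGroup V] [Module K V]

theorem avoid {ι : Type} (T : Submodule K V) (G : ι → V →ₗ[K] V →ₗ[K] K) {s : Set ι}
    (hs : s.Finite) (h : ∀ i ∈ s, ∃ w ∈ T, G i w w ≠ 0) :
    ∃ w ∈ T, ∀ i ∈ s, G i w w ≠ 0 := by
  classical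
  suffices H : ∃ f : V → K, PolyLine f ∧ (∃ w ∈ T, f w ≠ 0) ∧
      ∀ w, f w ≠ 0 → ∀ i ∈ s, G i w w ≠ 0 by
    obtain ⟨f, -, ⟨w, hw, hfw⟩, hf⟩ := H
    exact ⟨w, hw, hf w hfw⟩
  induction s, hs using Set.Finite.induction_on with
  | empty => exact ⟨fun _ => 1, PolyLine.const 1, ⟨0, T.zero_mem, one_ne_zero⟩,
      fun w _ i hi => absurd hi (Set.notMem_empty i)⟩
  | @insert i s _ _ ih =>
    obtain ⟨f, hf, ⟨w, hw, hfw⟩, hf'⟩ := ih fun j hj => h j (Set.mem_insert_of_mem _ hj)
    refine ⟨fun w => f w * G i w w, hf.mul (PolyLine.bil (G i)), ?_, ?_⟩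
    · by_contra hcon
      push Not at hcon
      rcases PolyLine.mul_zero_on hf (PolyLine.bil (G i)) T
        (fun w hw => mul_eq_zero.1 (hcon w hw)) with h1 | h1
      · exact hfw (h1 w hw)
      · obtain ⟨w', hw', hne⟩ := h i (Set.mem_insert _ _)
        exact hne (h1 w' hw')
    · intro w hw j hj
      rcases hj with rfl | hj
      · exact right_ne_zero_of_mul hw
      · exact hf' w (left_ne_zero_of_mul hw) j hj

/-- a member of the pencil is degenerate -/
def Deg (G : V →ₗ[K] V →ₗ[K] K) : Prop := ∃ v, v ≠ 0 ∧ ∀ u, G v u = 0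

theorem finite_deg [FiniteDimensional K V] (A B : V →ₗ[K] V →ₗ[K] K)
    (sA : ∀ u v, A u v = A v u) (sB : ∀ u v, B u v = B v u) (hn : ¬ Deg A) :
    {t : K | Deg (A + t • B)}.Finite := by
  classical
  let b := Module.finBasis K V
  set n := Module.finrank K V with hn'
  let M : Matrix (Fin n) (Fin n) K[X] := Matrix.of fun i j =>
    C (A (b i) (b j)) + X * C (B (b i) (b j))
  have hM : ∀ t : K, M.det.eval t = 0 → Deg (A + t • B) := by
    intro t ht
    rw [← coe_evalRingHom, RingHom.map_det] at ht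
    obtain ⟨v, hv, hv'⟩ := Matrix.exists_mulVec_eq_zero_iff.2 ht
    refine ⟨∑ j, v j • b j, ?_, ?_⟩
    · intro h0
      apply hv
      funext j
      exact Fintype.linearIndependent_iff.1 b.linearIndependent v h0 j
    · have : (A + t • B) (∑ j, v j • b j) = 0 := b.ext fun i => by
        have h1 := congrFun hv' i
        rw [Matrix.mulVec, dotProduct, Pi.zero_apply] at h1
        rw [LinearMap.zero_apply, ← h1]
        simp only [map_sum, map_smul, LinearMap.add_apply, LinearMap.smul_apply, smul_eq_mul,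
          LinearMap.sum_apply, M, RingHom.mapMatrix_apply, Matrix.map_apply, Matrix.of_apply,
          coe_evalRingHom, eval_add, eval_mul, eval_C, eval_X]
        refine Finset.sum_congr rfl fun j _ => ?_
        rw [sA (b j), sB (b j)]
        ring
      intro u
      rw [this]
      rfl
  have hM' : ∀ t : K, Deg (A + t • B) → M.det.eval t = 0 := by
    rintro t ⟨v, hv, hv'⟩
    rw [← coe_evalRingHom, RingHom.map_det]
    refine Matrix.exists_mulVec_eq_zero_iff.1 ⟨fun j => b.repr v j, ?_, ?_⟩
    · intro h0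
      apply hv
      have h1 : b.repr v = 0 := by
        ext j
        exact congrFun h0 j
      exact b.repr.map_eq_zero_iff.1 h1
    · funext i
      have h1 := hv' (b i)
      have h2 : v = ∑ j, b.repr v j • b j := (b.sum_repr v).symm
      rw [h2] at h1
      simp only [map_sum, map_smul, smul_eq_mul, LinearMap.add_apply, LinearMap.smul_apply,
        LinearMap.sum_apply] at h1
      rw [Pi.zero_apply, ← h1, Matrix.mulVec, dotProduct]
      refine Finset.sum_congr rfl fun j _ => ?_
      simp only [M, RingHom.mapMatrix_apply, Matrix.map_apply, Matrix.of_apply, coe_evalRingHom,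
        eval_add, eval_mul, eval_C, eval_X]
      rw [sA (b j), sB (b j)]
      ring
  have hne : M.det ≠ 0 := by
    intro h0
    apply hn
    have := hM 0 (by rw [h0, eval_zero])
    rwa [zero_smul, add_zero] at this
  refine (M.det.roots.toFinset.finite_toSet).subset fun t ht => ?_
  rw [Finset.mem_coe, Multiset.mem_toFinset]
  exact (mem_roots hne).2 (hM' t ht)

theorem vanish_on_tangent {O : Set K} (hO : Flat O) [FiniteDimensional K V] {D : Dat K V}
    (hD : D.Val O) (hn : ¬ Deg D.A) (hdim : 5 ≤ Module.finrank K V) (hI : Ind D)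
    (P : V) (hPA : D.A P P = 0) (hPB : D.B P P = 0) (h0 : D.x₀ P ≠ 0)
    (hns : ∀ c d : K, (∀ u, c * D.A P u + d * D.B P u = 0) → c = 0 ∧ d = 0) :
    ∃ c d : K, (c ≠ 0 ∨ d ≠ 0) ∧ ∀ w, D.A P w = 0 → D.B P w = 0 →
      c * D.A w w + d * D.B w w = 0 := by
  classical
  by_contra hcon
  push Not at hcon
  set T : Submodule K V := LinearMap.ker (D.A P) ⊓ LinearMap.ker (D.B P) with hT
  set S : Set K := {t : K | Deg (D.A + t • D.B)} with hS
  have hSf : S.Finite := finite_deg D.A D.B D.sA D.sB hn
  set Λ : Set (K × K) := {p | ∀ u, D.x₀ P * D.x₁ u - D.x₁ P * D.x₀ u =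
    p.1 * D.A P u + p.2 * D.B P u} with hΛ
  have hΛf : Λ.Finite := by
    refine Set.Subsingleton.finite ?_
    intro p hp q hq
    obtain ⟨h1, h2⟩ := hns (p.1 - q.1) (p.2 - q.2) fun u => by
      linear_combination hq u - hp u
    exact Prod.ext (sub_eq_zero.1 h1) (sub_eq_zero.1 h2)
  have hΛ0 : ∀ p ∈ Λ, p.1 ≠ 0 ∨ p.2 ≠ 0 := by
    intro p hp
    by_contra hc
    push Not at hc
    obtain ⟨-, h2⟩ := hI (-D.x₁ P) (D.x₀ P) fun v => by
      have := hp v
      rw [hc.1, hc.2] at this
      linear_combination this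
    exact h0 h2
  set s : Set (K × K) := ((fun t => ((1 : K), t)) '' S ∪ {((0 : K), (1 : K))}) ∪ Λ with hs
  have hsf : s.Finite := ((hSf.image _).union (Set.finite_singleton _)).union hΛf
  have hs0 : ∀ p ∈ s, p.1 ≠ 0 ∨ p.2 ≠ 0 := by
    rintro p ((⟨t, -, rfl⟩ | rfl) | hp)
    · exact Or.inl one_ne_zero
    · exact Or.inr one_ne_zero
    · exact hΛ0 p hp
  obtain ⟨w, hw, hw'⟩ := avoid T (fun p : K × K => p.1 • D.A + p.2 • D.B) hsf fun p hp => by
    obtain ⟨w, h1, h2, h3⟩ := hcon p.1 p.2 (hs0 p hp)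
    exact ⟨w, ⟨h1, h2⟩, by simpa using h3⟩
  simp only [LinearMap.add_apply, LinearMap.smul_apply, smul_eq_mul] at hw'
  have hAw : D.A P w = 0 := hw.1
  have hBw : D.B P w = 0 := hw.2
  have hBww : D.B w w ≠ 0 := by
    have := hw' (0, 1) (Or.inl (Or.inr rfl))
    simpa using this
  set t : K := -D.A w w / D.B w w with ht
  have htw : D.A w w + t * D.B w w = 0 := by
    rw [ht]
    field_simp
    ring
  have hnd : ¬ Deg (D.A + t • D.B) := by
    intro hdeg
    have := hw' (1, t) (Or.inl (Or.inl ⟨t, hdeg, rfl⟩))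
    apply this
    simpa using htw
  obtain ⟨k, hk⟩ := tangent_member hO (D.A + t • D.B) D.B (fun u v => by
      simp only [LinearMap.add_apply, LinearMap.smul_apply, smul_eq_mul]
      rw [D.sA, D.sB]) D.sB D.x₀ D.x₁ (fun v h1 h2 h3 => by
      simp only [LinearMap.add_apply, LinearMap.smul_apply, smul_eq_mul] at h1
      exact hD v (by rw [h2, mul_zero, add_zero] at h1; exact h1) h2 h3)
    (fun v hv => by
      by_contra hne
      exact hnd ⟨v, hne, hv⟩) hdim P w (by simp [hPA, hPB]) hPB h0 (by simp [hAw, hBw]) hBw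
    (by simpa using htw) hBww (fun k => by
      by_contra hc
      push Not at hc
      obtain ⟨h1, h2⟩ := hns (-k) (1 - k * t) fun u => by
        have := hc u
        simp only [LinearMap.add_apply, LinearMap.smul_apply, smul_eq_mul] at this
        linear_combination this
      rw [neg_eq_zero.1 h1, zero_mul, sub_zero] at h2
      exact one_ne_zero h2)
  have hmem : (k, k * t) ∈ Λ := by
    intro u
    have := hk u
    simp only [LinearMap.add_apply, LinearMap.smul_apply, smul_eq_mul] at this
    show _ = k * D.A P u + k * t * D.B P u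
    rw [this]
    ring
  apply hw' (k, k * t) (Or.inr hmem)
  show k * D.A w w + k * t * D.B w w = 0
  linear_combination k * htw

theorem cov_reg {O : Set K} (hO : Flat O) [FiniteDimensional K V] {D : Dat K V}
    (hD : D.Val O) (hn : ¬ Deg D.A) (hdim : 5 ≤ Module.finrank K V) (hI : Ind D)
    (hP : ∀ c d : K, c • D.A + d • D.B = 0 → c = 0 ∧ d = 0)
    (hH : ∀ c d : K, (c ≠ 0 ∨ d ≠ 0) → ¬ Hyp (c • D.A + d • D.B)) : D.Cov := by
  classical
  have hrad : ∀ (c d : K), ∃ r : V, Deg (c • D.A + d • D.B) →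
      r ≠ 0 ∧ ∀ u, (c • D.A + d • D.B) r u = 0 := by
    intro c d
    by_cases h : Deg (c • D.A + d • D.B)
    · obtain ⟨r, hr⟩ := h
      exact ⟨r, fun _ => hr⟩
    · exact ⟨0, fun h' => absurd h' h⟩
  choose ρ hρ using hrad
  set S : Set K := {t : K | Deg (D.A + t • D.B)} with hS
  have hSf : S.Finite := finite_deg D.A D.B D.sA D.sB hn
  -- representatives of the degenerate members
  set s : Set (K × K) := (fun t => ((1 : K), t)) '' S ∪
    {p | p = ((0 : K), (1 : K)) ∧ Deg (p.1 • D.A + p.2 • D.B)} with hs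
  have hsf : s.Finite := (hSf.image _).union ((Set.finite_singleton ((0 : K), (1 : K))).subset
    fun p hp => hp.1)
  have hsd : ∀ p ∈ s, Deg (p.1 • D.A + p.2 • D.B) := by
    rintro p (⟨t, ht, rfl⟩ | hp)
    · show Deg ((1 : K) • D.A + t • D.B)
      rw [one_smul]
      exact ht
    · exact hp.2
  have hs0 : ∀ p ∈ s, p.1 ≠ 0 ∨ p.2 ≠ 0 := by
    rintro p (⟨t, -, rfl⟩ | ⟨rfl, -⟩)
    · exact Or.inl one_ne_zero
    · exact Or.inr one_ne_zero
  -- every degenerate member is a multiple of a representative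
  have hrep : ∀ c d : K, (c ≠ 0 ∨ d ≠ 0) → Deg (c • D.A + d • D.B) →
      ∃ p ∈ s, ∃ k : K, k ≠ 0 ∧ c = k * p.1 ∧ d = k * p.2 := by
    intro c d hcd hdeg
    by_cases hc : c = 0
    · subst hc
      have hd : d ≠ 0 := by simpa using hcd
      refine ⟨(0, 1), Or.inr ⟨rfl, ?_⟩, d, hd, by simp, by simp⟩
      obtain ⟨v, hv, hv'⟩ := hdeg
      refine ⟨v, hv, fun u => ?_⟩
      have h1 := hv' u
      simp only [LinearMap.add_apply, LinearMap.smul_apply, smul_eq_mul, zero_mul, zero_add,
        one_mul] at h1 ⊢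
      exact (mul_eq_zero.1 h1).resolve_left hd
    · refine ⟨(1, d / c), Or.inl ⟨d / c, ?_, rfl⟩, c, hc, by simp, by field_simp⟩
      obtain ⟨v, hv, hv'⟩ := hdeg
      refine ⟨v, hv, fun u => ?_⟩
      have h1 := hv' u
      simp only [LinearMap.add_apply, LinearMap.smul_apply, smul_eq_mul] at h1 ⊢
      have h2 : c * (D.A v u + d / c * D.B v u) = 0 := by
        field_simp
        exact h1
      exact (mul_eq_zero.1 h2).resolve_left hc
  set W : Set (Submodule K V) :=
    (fun p : K × K => LinearMap.ker (D.A (ρ p.1 p.2))) '' s ∪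
      (fun p : K × K => LinearMap.ker (p.1 • D.A + p.2 • D.B)) '' s with hW
  refine Dat.cov_sub ∅ Set.finite_empty W ((hsf.image _).union (hsf.image _)) ?_ ?_
  · rintro U (⟨p, hp, rfl⟩ | ⟨p, hp, rfl⟩)
    · refine ker_ne_top fun h0 => ?_
      exact hn ⟨ρ p.1 p.2, (hρ p.1 p.2 (hsd p hp)).1, fun u => by rw [h0]; rfl⟩
    · intro htop
      obtain ⟨h1, h2⟩ := hP p.1 p.2 (LinearMap.ker_eq_top.1 htop)
      rcases hs0 p hp with h | h
      · exact h h1
      · exact h h2
  · intro P hPA hPB h0
    right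
    have hP0 : P ≠ 0 := by
      rintro rfl
      rw [map_zero] at h0
      exact h0 rfl
    by_cases hns : ∀ c d : K, (∀ u, c * D.A P u + d * D.B P u = 0) → c = 0 ∧ d = 0
    · obtain ⟨c, d, hcd, hG⟩ := vanish_on_tangent hO hD hn hdim hI P hPA hPB h0 hns
      set G : V →ₗ[K] V →ₗ[K] K := c • D.A + d • D.B with hGdef
      have sG : ∀ u v, G u v = G v u := by
        intro u v
        simp only [hGdef, LinearMap.add_apply, LinearMap.smul_apply, smul_eq_mul]
        rw [D.sA, D.sB]
      have hdeg : Deg G := by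
        by_contra hnd
        have h1 := isotropic_bound G sG (fun v hv => by
          by_contra hne
          exact hnd ⟨v, hne, hv⟩) (LinearMap.ker (D.A P) ⊓ LinearMap.ker (D.B P)) fun v hv => by
            have := hG v hv.1 hv.2
            simpa [hGdef] using this
        have h2 := finrank_ker_inf (D.A P) (D.B P)
        omega
      obtain ⟨p, hp, k, hk, hc, hd⟩ := hrep c d hcd hdeg
      set r := ρ p.1 p.2 with hr
      obtain ⟨hr0, hr1⟩ := hρ p.1 p.2 (hsd p hp)
      have hGr : ∀ u, G r u = 0 := by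
        intro u
        have h1 := hr1 u
        simp only [LinearMap.add_apply, LinearMap.smul_apply, smul_eq_mul] at h1
        simp only [hGdef, LinearMap.add_apply, LinearMap.smul_apply, smul_eq_mul]
        rw [hc, hd]
        linear_combination k * h1
      refine ⟨_, Or.inl ⟨p, hp, rfl⟩, ?_⟩
      show D.A r P = 0
      by_contra hAr
      rw [D.sA] at hAr
      -- `G` vanishes on a hyperplane
      apply hH c d hcd
      refine ⟨D.B P r • D.A P - D.A P r • D.B P, ?_, ?_⟩
      · intro hz
        obtain ⟨-, h2⟩ := hns (D.B P r) (-D.A P r) fun u => by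
          have := congrArg (fun l => l u) hz
          simp only [LinearMap.sub_apply, LinearMap.smul_apply, smul_eq_mul,
            LinearMap.zero_apply] at this
          linear_combination this
        exact hAr (neg_eq_zero.1 h2)
      · intro v hv
        simp only [LinearMap.sub_apply, LinearMap.smul_apply, smul_eq_mul] at hv
        have h1 := hG (v - (D.A P v / D.A P r) • r) (by
          rw [map_sub, map_smul, smul_eq_mul, div_mul_cancel₀ _ hAr, sub_self]) (by
          rw [map_sub, map_smul, smul_eq_mul]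
          field_simp
          linear_combination -hv)
        have h2 : G (v - (D.A P v / D.A P r) • r) (v - (D.A P v / D.A P r) • r) = G v v := by
          simp only [map_sub, map_smul, LinearMap.sub_apply, LinearMap.smul_apply, smul_eq_mul]
          rw [sG v r, hGr, hGr]
          ring
        rw [← hGdef, ← h2]
        simpa [hGdef] using h1
    · push Not at hns
      obtain ⟨c, d, hcd, hne⟩ := hns
      have hcd' : c ≠ 0 ∨ d ≠ 0 := by
        by_cases hc : c = 0
        · exact Or.inr (hne hc)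
        · exact Or.inl hc
      obtain ⟨p, hp, k, hk, hc, hd⟩ := hrep c d hcd' ⟨P, hP0, fun u => by
        simpa using hcd u⟩
      refine ⟨_, Or.inr ⟨p, hp, rfl⟩, ?_⟩
      rw [LinearMap.mem_ker]
      ext u
      have h1 := hcd u
      rw [hc, hd] at h1
      have h2 : k * (p.1 * D.A P u + p.2 * D.B P u) = 0 := by linear_combination h1
      simpa using (mul_eq_zero.1 h2).resolve_left hk

end Pool.Agent.T2h62.PQ
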