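import Pool.Agent.T2h62.PQ.Irr
import Pool.Agent.T2h62.PQ.Reg
import Pool.Agent.T2h62.PQ.Low
import Pool.Agent.TH783.CE.Hom

/-!
# Two quadratic equations: the values of a linear form in a flat set form a thin set
-/

set_option autoImplicit false
set_option linter.unusedSectionVars false

namespace Pool.Agent.T2h62.PQ

open Polynomial Pool.Agent.TH783.CE

variable {K : Type} [Field K] [CharZero K]

theorem Dat.cov_congr {V : Type} [AddCommGroup V] [Module K V] {D D' : Dat K V}
    (h : ∀ v, (D.A v v = 0 ∧ D.B v v = 0) ↔ (D'.A v v = 0 ∧ D'.B v v = 0)) (h0 : D.x₀ = D'.x₀)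
    (h1 : D.x₁ = D'.x₁) (hc : D'.Cov) : D.Cov := by
  obtain ⟨E, W, hE, hW, hU, hv⟩ := hc
  refine ⟨E, W, hE, hW, hU, fun v hA hB h2 => ?_⟩
  obtain ⟨hA', hB'⟩ := (h v).1 ⟨hA, hB⟩
  rw [h0] at h2
  rw [h0, h1]
  rcases hv v hA' hB' h2 with h3 | ⟨U, hUW, w, hwU, a1, a2, a3, a4⟩
  · exact Or.inl h3
  · refine Or.inr ⟨U, hUW, w, hwU, ?_⟩
    obtain ⟨b1, b2⟩ := (h w).2 ⟨a1, a2⟩
    rw [h0, h1]
    exact ⟨b1, b2, a3, a4⟩

theorem main {O : Set K} (hO : Flat O) (n : ℕ) : ∀ (V : Type) [AddCommGroup V] [Module K V]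
    [FiniteDimensional K V] (D : Dat K V), Module.finrank K V = n → D.Val O →
    Thin (D.vals ⊤) := by
  induction n using Nat.strong_induction_on with
  | _ n IH =>
    intro V _ _ _ D hn hD
    have IH' : ∀ U : Submodule K V, U ≠ ⊤ → Thin (D.vals U) := by
      intro U hU
      rw [← Dat.res_vals]
      exact IH _ (by rw [← hn]; exact Submodule.finrank_lt hU) U (D.res U) rfl
        (Dat.res_val hD U)
    by_cases hI : Ind D
    swap
    · unfold Ind at hI
      push Not at hI
      obtain ⟨a, b, hab, h⟩ := hI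
      refine (Dat.cov_dep (a := a) (b := b) ?_ hab).thin IH'
      by_cases ha : a = 0
      · exact Or.inr (h ha)
      · exact Or.inl ha
    by_cases hP : ∀ c d : K, c • D.A + d • D.B = 0 → c = 0 ∧ d = 0
    swap
    · push Not at hP
      obtain ⟨c, d, hcd, hne⟩ := hP
      have hcd' : ∀ v, c * D.A v v + d * D.B v v = 0 := by
        intro v
        have := congrArg (fun F => F v v) hcd
        simpa using this
      by_cases hc : c = 0
      · have hd := hne hc
        refine (cov_single hO hD D.A D.sA (fun v => ⟨fun h => h.1, fun h => ⟨h, ?_⟩⟩) hI).thin IH'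
        have := hcd' v
        rw [hc, zero_mul, zero_add] at this
        exact (mul_eq_zero.1 this).resolve_left hd
      · refine (cov_single hO hD D.B D.sB (fun v => ⟨fun h => h.2, fun h => ⟨?_, h⟩⟩) hI).thin IH'
        have := hcd' v
        rw [h, mul_zero, add_zero] at this
        exact (mul_eq_zero.1 this).resolve_left hc
    by_cases hH : ∀ c d : K, (c ≠ 0 ∨ d ≠ 0) → ¬ Hyp (c • D.A + d • D.B)
    swap
    · push Not at hH
      obtain ⟨c, d, hcd, hH⟩ := hH
      refine (cov_hyp (c • D.A + d • D.B) (fun u v => ?_) (fun h0 => ?_) (fun v hA hB => ?_)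
        hH).thin IH'
      · simp only [LinearMap.add_apply, LinearMap.smul_apply, smul_eq_mul]
        rw [D.sA, D.sB]
      · obtain ⟨h1, h2⟩ := hP c d h0
        rcases hcd with h | h
        · exact h h1
        · exact h h2
      · simp [hA, hB]
    by_cases hdim : Module.finrank K V ≤ 4
    · exact thin_low hO hD hdim hI hP hH
    push Not at hdim
    by_cases hR : ∀ r, (∀ u, D.A r u = 0) → (∀ u, D.B r u = 0) → r = 0
    swap
    · push Not at hR
      obtain ⟨r, h1, h2, h3⟩ := hR
      exact (cov_rad hO hD r h3 h1 h2).thin IH'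
    by_cases hirr : ∀ t : K, Deg (D.A + t • D.B)
    · refine (cov_irr hO hD (fun t => ?_) hR).thin IH'
      obtain ⟨v, hv, hv'⟩ := hirr t
      refine ⟨v, hv, fun u => ?_⟩
      rw [D.sA, D.sB]
      simpa using hv' u
    push Not at hirr
    obtain ⟨t, ht⟩ := hirr
    let D' : Dat K V :=
      { A := D.A + t • D.B
        B := D.B
        sA := fun u v => by
          simp only [LinearMap.add_apply, LinearMap.smul_apply, smul_eq_mul]
          rw [D.sA, D.sB]
        sB := D.sB
        x₀ := D.x₀
        x₁ := D.x₁ }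
    have hz : ∀ v, (D.A v v = 0 ∧ D.B v v = 0) ↔ (D'.A v v = 0 ∧ D'.B v v = 0) := by
      intro v
      show _ ↔ ((D.A + t • D.B) v v = 0 ∧ D.B v v = 0)
      simp only [LinearMap.add_apply, LinearMap.smul_apply, smul_eq_mul]
      constructor
      · rintro ⟨h1, h2⟩
        exact ⟨by rw [h1, h2]; ring, h2⟩
      · rintro ⟨h1, h2⟩
        exact ⟨by rw [h2] at h1; linear_combination h1, h2⟩
    refine (Dat.cov_congr hz rfl rfl (cov_reg hO (D := D') ?_ ht (by omega) hI ?_ ?_)).thin IH'
    · intro v h1 h2 h3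
      obtain ⟨h4, h5⟩ := (hz v).2 ⟨h1, h2⟩
      exact hD v h4 h5 h3
    · intro c d h
      obtain ⟨h1, h2⟩ := hP c (c * t + d) (by
        rw [← h]
        show _ = c • (D.A + t • D.B) + d • D.B
        rw [smul_add, smul_smul, add_smul, add_assoc])
      refine ⟨h1, ?_⟩
      rw [h1, zero_mul, zero_add] at h2
      exact h2
    · intro c d hcd
      have e : c • D'.A + d • D'.B = c • D.A + (c * t + d) • D.B := by
        show c • (D.A + t • D.B) + d • D.B = _
        rw [smul_add, smul_smul, add_smul, add_assoc]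
      rw [e]
      refine hH _ _ ?_
      by_cases hc : c = 0
      · right
        rw [hc, zero_mul, zero_add]
        rcases hcd with h | h
        · exact absurd hc h
        · exact h
      · exact Or.inl hc

/-- the symmetric product of two linear forms -/
noncomputable def sp {V : Type} [AddCommGroup V] [Module K V] (p q : V →ₗ[K] K) :
    V →ₗ[K] V →ₗ[K] K :=
  (1 / 2 : K) • (LinearMap.mk₂ K (fun a b => p a * q b + q a * p b)
    (fun a a' b => by rw [map_add, map_add]; ring)
    (fun c a b => by simp only [map_smul, smul_eq_mul]; ring)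
    (fun a b b' => by rw [map_add, map_add]; ring)
    (fun c a b => by simp only [map_smul, smul_eq_mul]; ring))

theorem sp_apply {V : Type} [AddCommGroup V] [Module K V] (p q : V →ₗ[K] K) (u v : V) :
    sp p q u v = (p u * q v + q u * p v) / 2 := by
  simp only [sp, LinearMap.smul_apply, LinearMap.mk₂_apply, smul_eq_mul]
  ring

/-- functions given by quadratic forms -/
def Rep2 {V X : Type} [AddCommGroup V] [Module K V] (φ : X → V) (g : X → K) : Prop :=
  ∃ B : V →ₗ[K] V →ₗ[K] K, (∀ u v, B u v = B v u) ∧ ∀ x, B (φ x) (φ x) = g x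

theorem rep2_affine {n : ℕ} (f : MvPolynomial (Fin n) K) (hf : f.totalDegree ≤ 2) :
    Rep2 (K := K) (aug : (Fin n → K) → (Fin (n + 1) → K)) (fun x => MvPolynomial.eval x f) := by
  have hadd : ∀ {g h : (Fin n → K) → K}, Rep2 (K := K) aug g → Rep2 (K := K) aug h →
      Rep2 (K := K) aug fun x => g x + h x := by
    rintro g h ⟨F, sF, hF⟩ ⟨G, sG, hG⟩
    exact ⟨F + G, fun u v => by simp only [LinearMap.add_apply]; rw [sF, sG],
      fun x => by simp only [LinearMap.add_apply, hF, hG]⟩
  have hsmul : ∀ {g : (Fin n → K) → K} (t : K), Rep2 (K := K) aug g →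
      Rep2 (K := K) aug fun x => t * g x := by
    rintro g t ⟨F, sF, hF⟩
    exact ⟨t • F, fun u v => by simp only [LinearMap.smul_apply]; rw [sF],
      fun x => by simp only [LinearMap.smul_apply, hF, smul_eq_mul]⟩
  have hprod : ∀ {g : (Fin n → K) → K} (p q : (Fin (n + 1) → K) →ₗ[K] K),
      (∀ x, g x = p (aug x) * q (aug x)) → Rep2 (K := K) aug g := by
    intro g p q h
    exact ⟨sp p q, fun u v => by rw [sp_apply, sp_apply]; ring, fun x => by
      rw [sp_apply, h]; ring⟩
  rw [show (fun x => MvPolynomial.eval x f) = fun x =>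
      ∑ d ∈ f.support, f.coeff d * (d.toMultiset.map x).prod from
    funext fun x => eval_sum' f x]
  have hsum : ∀ s ⊆ f.support, Rep2 (K := K) (aug : (Fin n → K) → (Fin (n + 1) → K))
      fun x => ∑ d ∈ s, f.coeff d * (d.toMultiset.map x).prod := by
    classical
    intro s
    induction s using Finset.induction_on with
    | empty =>
      intro _
      exact ⟨0, fun _ _ => rfl, fun x => by simp⟩
    | insert d s hd ih =>
      intro hs
      have h1 : (fun x : Fin n → K => ∑ d ∈ insert d s, f.coeff d * (d.toMultiset.map x).prod) =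
          fun x => f.coeff d * (d.toMultiset.map x).prod +
            ∑ d ∈ s, f.coeff d * (d.toMultiset.map x).prod := by
        funext x
        rw [Finset.sum_insert hd]
      rw [h1]
      refine hadd (hsmul _ ?_) (ih fun i hi => hs (Finset.mem_insert_of_mem hi))
      have hcard : Multiset.card d.toMultiset ≤ 2 := by
        rw [Finsupp.card_toMultiset]
        exact (MvPolynomial.le_totalDegree (hs (Finset.mem_insert_self _ _))).trans hf
      have h0 : Multiset.card d.toMultiset = 0 ∨ Multiset.card d.toMultiset = 1 ∨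
          Multiset.card d.toMultiset = 2 := by omega
      rcases h0 with h | h | h
      · rw [Multiset.card_eq_zero] at h
        refine hprod (LinearMap.proj 0) (LinearMap.proj 0) fun x => ?_
        rw [h]
        simp [aug_zero]
      · obtain ⟨i, hi⟩ := Multiset.card_eq_one.1 h
        refine hprod (LinearMap.proj i.succ) (LinearMap.proj 0) fun x => ?_
        rw [hi]
        simp [aug_zero, aug_succ]
      · obtain ⟨i, j, hi⟩ := Multiset.card_eq_two.1 h
        refine hprod (LinearMap.proj i.succ) (LinearMap.proj j.succ) fun x => ?_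
        rw [hi]
        simp [aug_succ]
  exact hsum _ (Finset.Subset.refl _)

/-- **Two equations of degree at most two.** -/
theorem thin_pair {O : Set K} (hO : Flat O) {n : ℕ} (f g : MvPolynomial (Fin (n + 1)) K)
    (hf : f.totalDegree ≤ 2) (hg : g.totalDegree ≤ 2)
    (h : ∀ (t : K) (z : Fin n → K), MvPolynomial.eval (Fin.cons t z) f = 0 →
      MvPolynomial.eval (Fin.cons t z) g = 0 → t ∈ O) :
    Thin {t : K | ∃ z : Fin n → K, MvPolynomial.eval (Fin.cons t z) f = 0 ∧
      MvPolynomial.eval (Fin.cons t z) g = 0} := by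
  obtain ⟨A, sA, hA⟩ := rep2_affine f hf
  obtain ⟨B, sB, hB⟩ := rep2_affine g hg
  simp only at hA hB
  let D : Dat K (Fin (n + 2) → K) := ⟨A, B, sA, sB, LinearMap.proj 0, LinearMap.proj 1⟩
  have hdec : ∀ (F : (Fin (n + 2) → K) →ₗ[K] (Fin (n + 2) → K) →ₗ[K] K)
      (f : MvPolynomial (Fin (n + 1)) K), (∀ x, F (aug x) (aug x) = MvPolynomial.eval x f) →
      ∀ P : Fin (n + 2) → K, P 0 ≠ 0 → F P P = 0 →
      MvPolynomial.eval (Fin.cons (P 1 / P 0) fun i => P i.succ.succ / P 0) f = 0 := by
    intro F f hF P hP0 hP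
    rw [← hF]
    have e : aug (Fin.cons (P 1 / P 0) fun i => P i.succ.succ / P 0) = (P 0)⁻¹ • P := by
      funext i
      refine Fin.cases ?_ (fun i => ?_) i
      · rw [aug_zero, Pi.smul_apply, smul_eq_mul, inv_mul_cancel₀ hP0]
      · rw [aug_succ, Pi.smul_apply, smul_eq_mul]
        refine Fin.cases ?_ (fun i => ?_) i
        · rw [Fin.cons_zero, div_eq_inv_mul]
          rfl
        · rw [Fin.cons_succ, div_eq_inv_mul]
    rw [e, map_smul, map_smul, LinearMap.smul_apply, hP, smul_zero, smul_zero]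
  have h1 := main hO _ _ D rfl fun P hPA hPB hP0 =>
    h _ _ (hdec A f hA P hP0 hPA) (hdec B g hB P hP0 hPB)
  refine h1.mono ?_
  rintro t ⟨z, hz1, hz2⟩
  refine ⟨aug (Fin.cons t z), trivial, ?_, ?_, ?_, ?_⟩
  · show A _ _ = 0
    rw [hA, hz1]
  · show B _ _ = 0
    rw [hB, hz2]
  · show aug (Fin.cons t z) 0 ≠ 0
    rw [aug_zero]
    exact one_ne_zero
  · show t = aug (Fin.cons t z) 1 / aug (Fin.cons t z) 0
    rw [aug_zero, div_one]
    rfl

end Pool.Agent.T2h62.PQ
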