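import Pool.Agent.T2h62.PQ.Base

/-!
# Rational curves through a nonsingular point in a tangent hyperplane of a member of the pencil
-/

set_option autoImplicit false
set_option linter.unusedSectionVars false

namespace Pool.Agent.T2h62.PQ

open Polynomial Pool.Agent.TH783.CE

variable {K : Type} [Field K] [CharZero K] {V : Type} [AddCommGroup V] [Module K V]

theorem prop_of_ker (l m : V →ₗ[K] K) (h : ∀ u, l u = 0 → m u = 0) : ∃ c, ∀ u, m u = c * l u := by
  by_cases hl : l = 0
  · exact ⟨0, fun u => by rw [h u (by rw [hl]; rfl), zero_mul]⟩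
  · obtain ⟨e, he⟩ : ∃ e, l e ≠ 0 := by
      by_contra hcon
      push Not at hcon
      exact hl (LinearMap.ext hcon)
    refine ⟨m e / l e, fun u => ?_⟩
    have h1 := h (u - (l u / l e) • e) (by
      rw [map_sub, map_smul, smul_eq_mul, div_mul_cancel₀ _ he, sub_self])
    rw [map_sub, map_smul, smul_eq_mul] at h1
    rw [sub_eq_zero.1 h1]
    field_simp

theorem isotropic_bound [FiniteDimensional K V] (G : V →ₗ[K] V →ₗ[K] K)
    (sG : ∀ u v, G u v = G v u) (hn : ∀ v, (∀ u, G v u = 0) → v = 0) (W : Submodule K V)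
    (hW : ∀ v ∈ W, G v v = 0) : 2 * Module.finrank K W ≤ Module.finrank K V := by
  have hrefl : LinearMap.BilinForm.IsRefl G := fun u v h => by rw [sG]; exact h
  have hnd : LinearMap.BilinForm.Nondegenerate G := by
    constructor
    · intro v hv
      exact hn v hv
    · intro v hv
      exact hn v fun u => by rw [sG]; exact hv u
  have h1 := LinearMap.BilinForm.finrank_orthogonal hnd W
  have h2 : W ≤ LinearMap.BilinForm.orthogonal G W := by
    intro u hu v hv
    have h3 := hW (u + v) (W.add_mem hu hv)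
    have h4 := hW u hu
    have h5 := hW v hv
    simp only [map_add, LinearMap.add_apply] at h3
    have h6 : (2 : K) * G v u = 0 := by linear_combination h3 - h4 - h5 - sG u v
    show G v u = 0
    simpa using h6
  have h3 := Submodule.finrank_mono h2
  have h4 := Submodule.finrank_le W
  omega

theorem finrank_ker_inf [FiniteDimensional K V] (l m : V →ₗ[K] K) :
    Module.finrank K V ≤ Module.finrank K (LinearMap.ker l ⊓ LinearMap.ker m : Submodule K V) + 2 := by
  have h1 := Submodule.finrank_sup_add_finrank_inf_eq (LinearMap.ker l) (LinearMap.ker m)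
  have h2 := Submodule.finrank_le (LinearMap.ker l ⊔ LinearMap.ker m)
  have h3 : ∀ l : V →ₗ[K] K, Module.finrank K V ≤ Module.finrank K (LinearMap.ker l) + 1 := by
    intro l
    have h4 := LinearMap.finrank_range_add_finrank_ker l
    have h5 := Submodule.finrank_le (LinearMap.range l)
    rw [Module.finrank_self] at h5
    omega
  have h4 := h3 l
  have h5 := h3 m
  omega

theorem tangent_member {O : Set K} (hO : Flat O) [FiniteDimensional K V]
    (G C : V →ₗ[K] V →ₗ[K] K) (sG : ∀ u v, G u v = G v u) (sC : ∀ u v, C u v = C v u)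
    (x₀ x₁ : V →ₗ[K] K)
    (hval : ∀ v, G v v = 0 → C v v = 0 → x₀ v ≠ 0 → x₁ v / x₀ v ∈ O)
    (hn : ∀ v, (∀ u, G v u = 0) → v = 0) (hdim : 5 ≤ Module.finrank K V)
    (P w : V) (hGP : G P P = 0) (hCP : C P P = 0) (h0 : x₀ P ≠ 0)
    (hGw : G P w = 0) (hCw : C P w = 0) (hGww : G w w = 0) (hCww : C w w ≠ 0)
    (hns : ∀ k, ∃ u, C P u ≠ k * G P u) :
    ∃ k, ∀ u, x₀ P * x₁ u - x₁ P * x₀ u = k * G P u := by
  set H : Submodule K V := LinearMap.ker (G P) with hH
  have memH : ∀ u, u ∈ H ↔ G P u = 0 := fun u => LinearMap.mem_ker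
  -- `w` is a nonsingular point
  have hw1 : ¬ ∀ u ∈ H, G w u = 0 := by
    intro hcon
    obtain ⟨c, hc⟩ := prop_of_ker (G P) (G w) fun u hu => hcon u ((memH u).2 hu)
    have h1 := hn (w - c • P) fun u => by
      rw [map_sub, map_smul, LinearMap.sub_apply, LinearMap.smul_apply, smul_eq_mul, hc, sub_self]
    have h2 : w = c • P := sub_eq_zero.1 h1
    apply hCww
    rw [h2, map_smul, map_smul, LinearMap.smul_apply, hCP, smul_zero, smul_zero]
  have hC1 : ¬ ∀ u ∈ H, C P u = 0 := by
    intro hcon
    obtain ⟨c, hc⟩ := prop_of_ker (G P) (C P) fun u hu => hcon u ((memH u).2 hu)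
    obtain ⟨u, hu⟩ := hns c
    exact hu (hc u)
  obtain ⟨u₀, hu₀, hu₀', hu₀''⟩ : ∃ u, G P u = 0 ∧ G w u = 0 ∧ G u u ≠ 0 := by
    by_contra hcon
    push Not at hcon
    have h1 := isotropic_bound G sG hn (LinearMap.ker (G P) ⊓ LinearMap.ker (G w))
      fun v hv => hcon v hv.1 hv.2
    have h2 := finrank_ker_inf (G P) (G w)
    omega
  set cy : V → K := fun u => G u u * G u u * C w w - 4 * G u u * G w u * C w u +
    4 * G w u * G w u * C u u with hcy
  set z : V → V := fun u => cy u • P + (4 * G w u * C P u) • (G u u • w - (2 * G w u) • u) with hz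
  have hzG : ∀ u, G P u = 0 → G (z u) (z u) = 0 := by
    intro u hu
    simp only [hz, map_add, map_sub, map_smul, LinearMap.add_apply, LinearMap.sub_apply,
      LinearMap.smul_apply, smul_eq_mul]
    rw [sG u P, sG w P, sG u w, hu, hGw, hGP, hGww]
    ring
  have hzC : ∀ u, C (z u) (z u) = 0 := by
    intro u
    simp only [hz, map_add, map_sub, map_smul, LinearMap.add_apply, LinearMap.sub_apply,
      LinearMap.smul_apply, smul_eq_mul]
    rw [sC u P, sC w P, sC u w, hCw, hCP]
    simp only [hcy]
    ring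
  have hpl : ∀ x : V →ₗ[K] K, PolyLine fun u : H => x (z u) := by
    intro x
    have h1 : PolyLine fun u : V => (G u u * G u u * C w w - 4 * G u u * G w u * C w u +
        4 * G w u * G w u * C u u) * x P + 4 * G w u * C P u * (G u u * x w - 2 * G w u * x u) :=
      ((((((PolyLine.bil G).mul (PolyLine.bil G)).mul (PolyLine.const (C w w))).sub
        ((((PolyLine.const (4 : K)).mul (PolyLine.bil G)).mul (PolyLine.lin (G w))).mul
          (PolyLine.lin (C w)))).add ((((PolyLine.const (4 : K)).mul (PolyLine.lin (G w))).mul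
          (PolyLine.lin (G w))).mul (PolyLine.bil C))).mul (PolyLine.const (x P))).add
        ((((PolyLine.const (4 : K)).mul (PolyLine.lin (G w))).mul (PolyLine.lin (C P))).mul
          (((PolyLine.bil G).mul (PolyLine.const (x w))).sub
            (((PolyLine.const (2 : K)).mul (PolyLine.lin (G w))).mul (PolyLine.lin x))))
    have e : (fun u : H => x (z u)) = fun u : H => (fun u : V => (G u u * G u u * C w w -
        4 * G u u * G w u * C w u + 4 * G w u * G w u * C u u) * x P +
        4 * G w u * C P u * (G u u * x w - 2 * G w u * x u)) (H.subtype u) := by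
      funext u
      simp only [hz, hcy, map_add, map_sub, map_smul, smul_eq_mul, Submodule.subtype_apply]
    rw [e]
    exact h1.comp H.subtype
  obtain ⟨a, b, hab, hh⟩ := prop_of hO (fun u : H => x₀ (z u)) (fun u : H => x₁ (z u)) (hpl x₀)
    (hpl x₁) fun u hu => hval _ (hzG u ((memH u).1 u.2)) (hzC u) hu
  have hval' : ∀ u, G P u = 0 → cy u * (a * x₀ P + b * x₁ P) + 4 * G w u * C P u *
      (G u u * (a * x₀ w + b * x₁ w) - 2 * G w u * (a * x₀ u + b * x₁ u)) = 0 := by
    intro u hu
    have h1 := hh ⟨u, (memH u).2 hu⟩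
    simp only [hz, map_add, map_sub, map_smul, smul_eq_mul] at h1
    linear_combination h1
  have hl : a * x₀ P + b * x₁ P = 0 := by
    have h1 := hval' u₀ hu₀
    simp only [hcy, hu₀'] at h1
    have h2 : (G u₀ u₀ * G u₀ u₀ * C w w) * (a * x₀ P + b * x₁ P) = 0 := by linear_combination h1
    exact (mul_eq_zero.1 h2).resolve_left (mul_ne_zero (mul_ne_zero hu₀'' hu₀'') hCww)
  have h2 : ∀ u ∈ H, G u u * (a * x₀ w + b * x₁ w) - 2 * G w u * (a * x₀ u + b * x₁ u) = 0 := by
    have p3 : PolyLine fun u : V => G u u * (a * x₀ w + b * x₁ w) -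
        2 * G w u * (a * x₀ u + b * x₁ u) :=
      ((PolyLine.bil G).mul (PolyLine.const _)).sub (((PolyLine.const (2 : K)).mul
        (PolyLine.lin (G w))).mul (((PolyLine.const a).mul (PolyLine.lin x₀)).add
        ((PolyLine.const b).mul (PolyLine.lin x₁))))
    rcases PolyLine.mul_zero_on (PolyLine.lin (G w)) ((PolyLine.lin (C P)).mul p3) H (fun u hu => by
      have h1 := hval' u ((memH u).1 hu)
      rw [hl, mul_zero, zero_add] at h1
      have h3 : (4 : K) * (G w u * (C P u * (G u u * (a * x₀ w + b * x₁ w) -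
          2 * G w u * (a * x₀ u + b * x₁ u)))) = 0 := by linear_combination h1
      have h4 := (mul_eq_zero.1 h3).resolve_left (by norm_num)
      exact mul_eq_zero.1 h4) with h | h
    · exact absurd h hw1
    · rcases PolyLine.mul_zero_on (PolyLine.lin (C P)) p3 H
        (fun u hu => mul_eq_zero.1 (h u hu)) with h | h
      · exact absurd h hC1
      · exact h
  have hlw : a * x₀ w + b * x₁ w = 0 := by
    have h3 := h2 u₀ ((memH u₀).2 hu₀)
    rw [hu₀', mul_zero, zero_mul, sub_zero] at h3
    exact (mul_eq_zero.1 h3).resolve_left hu₀''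
  have h3 : ∀ u ∈ H, a * x₀ u + b * x₁ u = 0 := by
    rcases PolyLine.mul_zero_on (PolyLine.lin (G w)) (((PolyLine.const a).mul
      (PolyLine.lin x₀)).add ((PolyLine.const b).mul (PolyLine.lin x₁))) H (fun u hu => by
      have h4 := h2 u hu
      rw [hlw, mul_zero, zero_sub, neg_eq_zero, mul_assoc] at h4
      exact mul_eq_zero.1 ((mul_eq_zero.1 h4).resolve_left two_ne_zero)) with h | h
    · exact absurd h hw1
    · exact h
  obtain ⟨k, hk⟩ := prop_of_ker (G P) (a • x₀ + b • x₁) fun u hu => by
    simpa using h3 u ((memH u).2 hu)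
  have hb : b ≠ 0 := by
    rintro rfl
    rcases hab with ha | ha
    · rw [zero_mul, add_zero] at hl
      exact (mul_ne_zero ha h0) hl
    · exact ha rfl
  refine ⟨x₀ P * k / b, fun u => ?_⟩
  have h4 := hk u
  simp only [LinearMap.add_apply, LinearMap.smul_apply, smul_eq_mul] at h4
  have h5 : b * (x₀ P * x₁ u - x₁ P * x₀ u) = x₀ P * (k * G P u) := by
    linear_combination x₀ P * h4 - x₀ u * hl
  field_simp
  linear_combination h5

end Pool.Agent.T2h62.PQ
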